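import Pool.Agent.H75.BC.G.Data

/-!
Connes' bicentralizer problem (the case `N = M`).
-/

set_option autoImplicit false
set_option linter.unusedSectionVars false
set_option linter.deprecated false

open MeasureTheory Filter Topology Complex
open scoped InnerProductSpace ENNReal

namespace Pool.Agent.H75.BC.R

open Pool.Agent.W662.CB Pool.Agent.H75.BC Pool.Agent.H75.BC.FB Pool.Agent.H75.BC.G

noncomputable section

theorem ce_id {H : Type} [NormedAddCommGroup H] [InnerProductSpace ℂ H] [CompleteSpace H]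
    (M : VonNeumannAlgebra H) (ξ : H) (hcyc : IsCyclic M ξ) : CE M M ξ id where
  cyc := hcyc
  exp :=
    { mem := fun _ hx => hx
      proj := fun _ _ => rfl
      add := fun _ _ _ _ => rfl
      smul := fun _ _ _ => rfl
      star_eq := fun _ _ => rfl
      pos := fun _ _ h => h
      left := fun _ _ _ _ => rfl
      right := fun _ _ _ _ => rfl }
  inv := fun _ _ => rfl

theorem bicentralizer_trivial {H : Type} [NormedAddCommGroup H] [InnerProductSpace ℂ H]
    [CompleteSpace H] (M : VonNeumannAlgebra H) (ξ : H) (U : ℝ → H →L[ℂ] H) (hξ : ‖ξ‖ = 1)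
    (hcyc : IsCyclic M ξ) (hsep : IsSeparating M ξ) (hU : IsModular M ξ U)
    (hfac : IsFac (core M U)) {x : H →L[ℂ] H} (hx : x ∈ Bic M M ξ) :
    x = vst ξ x • (1 : H →L[ℂ] H) := by
  have hs : Std M M ξ U := ⟨fun _ h => h, hξ, hsep, hU, fun t x hx => hU.mem t x hx⟩
  obtain ⟨κ, e, S, W, J, E, D, -⟩ := core_data hs hfac
  obtain ⟨J0, ρ, R⟩ := All.hJ H M ξ U hξ hcyc hsep hU
  exact ce_scalar All.hL All.hEx All.hEv All.hCT D R (ce_id M ξ hcyc) hx


end

end Pool.Agent.H75.BC.R
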